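import Mathlib
import Pool.Agent.H400Z.Win.Defs
import Pool.Agent.H400Z.Win.Rank2

set_option autoImplicit false

namespace Pool.Agent.Results.MP_f42bc2_nt.ANotOpen

open NumberField Pool.Agent.H400Z.Win

/-- There are a number field of unit rank at least one and a nonzero prime ideal of its ring of
integers whose Euclidean window is not open in the interval `(1, ∞)`. -/
theorem result : ∃ (K : Type) (_ : Field K) (_ : NumberField K), 1 ≤ Units.rank K ∧
    ∃ p : Ideal (𝓞 K), p.IsPrime ∧ p ≠ ⊥ ∧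
      ¬ IsOpen (Subtype.val ⁻¹' window p : Set (Set.Ioi (1 : ℝ))) := by
  have : Fact (∀ r : ℚ, r ^ 2 ≠ 2 + 0 * r) := ⟨fun r => by simpa using H400Z.Win2.irr2 r⟩
  have : NumberField (QuadraticAlgebra ℚ 2 0) := {}
  have hK : Module.finrank ℚ (QuadraticAlgebra ℚ 2 0) = 2 := QuadraticAlgebra.finrank_eq_two ..
  have hT : (⟨0, 1⟩ : QuadraticAlgebra ℚ 2 0) ^ 2 = 2 := by
    rw [← one_add_one_eq_two (R := QuadraticAlgebra ℚ 2 0)]
    ext <;> simp [sq, QuadraticAlgebra.re_one, QuadraticAlgebra.im_one]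
    norm_num
  have hi : IsIntegral ℤ (⟨0, 1⟩ : QuadraticAlgebra ℚ 2 0) := by
    refine IsIntegral.of_pow (n := 2) (by norm_num) ?_
    rw [hT]
    exact_mod_cast isIntegral_algebraMap (R := ℤ) (x := 2)
  obtain ⟨θ, hθ'⟩ : ∃ θ : 𝓞 (QuadraticAlgebra ℚ 2 0),
      algebraMap _ (QuadraticAlgebra ℚ 2 0) θ = ⟨0, 1⟩ := ⟨⟨⟨0, 1⟩, hi⟩, rfl⟩
  have hθ : θ ^ 2 = 2 := by
    apply RingOfIntegers.coe_injective
    rw [map_pow, map_ofNat, hθ']
    exact hT
  refine ⟨QuadraticAlgebra ℚ 2 0, inferInstance, inferInstance, H400Z.Win2.rank_ge hK hT, _,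
    (H400Z.Win2.prime_span hK hθ).1, (H400Z.Win2.prime_span hK hθ).2,
    H400Z.Win2.not_open_of_isLeast (H400Z.Win2.window_isLeast hK hθ)⟩

end Pool.Agent.Results.MP_f42bc2_nt.ANotOpen
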